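import Pool.Agent.Helper95.LN.Stmts
import Pool.Agent.Helper74.PN.MGS

/-! # Row MGX (MP_56acfd_mp): the Morawetz inequality with a constant error -/

set_option autoImplicit false

namespace Pool.Agent.Helper99.LN

open MeasureTheory Filter Pool.Agent.Helper95.PW Pool.Agent.Helper95.LN
  Pool.Agent.Helper95.PW.MGS74

/-- the bilaplacian vanishes outside, also on the sphere -/
theorem MGX_out (d : ℝ) (h : R3 → ℝ) (hh : ContDiff ℝ (⊤ : ℕ∞) h)
    (h0 : ∀ y, d ≤ nr y → h y = 0) (y : R3) (hy : d ≤ nr y) : lap (lap h) y = 0 := by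
  have h1 : ∀ g : R3 → ℝ, ContDiff ℝ (⊤ : ℕ∞) g → (∀ y, d ≤ nr y → g y = 0) →
      ∀ y, d ≤ nr y → lap g y = 0 := by
    intro g hg g0 z hz
    unfold lap
    apply Finset.sum_eq_zero
    intro i _
    exact pd_zero d i _ (pd_smooth i g hg) (fun w hw => pd_zero d i g hg g0 w hw) z hz
  exact h1 _ (lap_smooth h hh) (h1 h hh h0) y hy

/-- decay of `mor` -/
theorem MGX_mor (d s : ℝ) (hs : 0 < s) (hsd : s ≤ d) (w : R3) (hw : d ≤ nr w) :
    mor s w ≤ 15 / 2 * d * (1 / nr w ^ 4) := by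
  have hd : 0 < d := hs.trans_le hsd
  have hr : 0 < nr w := hd.trans_le hw
  have e : (nr w ^ 2) ^ (7 / 2 : ℝ) = nr w ^ 7 := by
    rw [← Real.rpow_natCast (nr w) 2, ← Real.rpow_mul hr.le, ← Real.rpow_natCast (nr w) 7]
    norm_num
  have e2 : nr w ^ 7 ≤ (nr w ^ 2 + s ^ 2) ^ (7 / 2 : ℝ) := by
    rw [← e]
    exact Real.rpow_le_rpow (by positivity) (by nlinarith [sq_nonneg s]) (by norm_num)
  have e3 : d ^ 3 * nr w ^ 4 ≤ nr w ^ 7 := by
    have : d ^ 3 ≤ nr w ^ 3 := pow_le_pow_left₀ hd.le hw 3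
    calc d ^ 3 * nr w ^ 4 ≤ nr w ^ 3 * nr w ^ 4 :=
          mul_le_mul_of_nonneg_right this (by positivity)
      _ = nr w ^ 7 := by ring
  have e4 : s ^ 4 ≤ d ^ 4 := pow_le_pow_left₀ hs.le hsd 4
  unfold mor
  have h1 : 15 / 2 * s ^ 4 / (nr w ^ 2 + s ^ 2) ^ (7 / 2 : ℝ) ≤
      15 / 2 * d ^ 4 / (d ^ 3 * nr w ^ 4) := by
    apply div_le_div₀ (by positivity) (by linarith) (by positivity) (e3.trans e2)
  refine h1.trans (le_of_eq ?_)
  field_simp

theorem MGX (h1 : ST_MGB) (h2 : ST_PK4) : ST_MGX := by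
  intro d hd
  obtain ⟨A0, hA0, hF⟩ := h1 d hd
  obtain ⟨C, hC, hPK⟩ := h2
  have hc : 0 ≤ A0 * (2 / d) := by positivity
  have hc2 : 0 ≤ 15 / 2 * d * (C / d ^ 4) := by positivity
  refine ⟨A0 * (2 / d) + 15 / 2 * d * (C / d ^ 4) + 1, by linarith, ?_⟩
  intro M X s hX hs hsd y
  have hf := hF s hs hsd
  have e0 : mG X d s = fun y => ∑ j, mg d s (y - X j) := rfl
  have e3 : lap (mG X d s) = fun y => ∑ j, lap (mg d s) (y - X j) := by
    rw [e0]
    exact lap_sum X _ hf.sm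
  have e4 : lap (lap (mG X d s)) = fun y => ∑ j, lap (lap (mg d s)) (y - X j) := by
    rw [e3]
    exact lap_sum X _ (lap_smooth _ hf.sm)
  rw [e4]
  have hterm : ∀ j : Fin M, mor s (y - X j) ≤ -(1 / 2) * lap (lap (mg d s)) (y - X j) +
      ((if nr (y - X j) < d then A0 * (2 / d) else 0) +
        15 / 2 * d * (if d ≤ nr (y - X j) then 1 / nr (y - X j) ^ 4 else 0)) := by
    intro j
    by_cases hj : nr (y - X j) < d
    · rw [if_pos hj, if_neg (not_le.2 hj), mul_zero, add_zero]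
      have hb := hf.bi (y - X j)
      have hle : A0 * (if d / 2 ≤ nr (y - X j) then 1 / nr (y - X j) else 0) ≤ A0 * (2 / d) := by
        apply mul_le_mul_of_nonneg_left _ (by linarith)
        split_ifs with hh
        · rw [div_le_div_iff₀ (by linarith) hd]
          linarith
        · positivity
      linarith
    · have hj' : d ≤ nr (y - X j) := not_lt.1 hj
      rw [if_neg hj, if_pos hj', MGX_out d _ hf.sm hf.out _ hj', mul_zero, zero_add, zero_add]
      exact MGX_mor d s hs hsd _ hj'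
  have hsum := Finset.sum_le_sum (fun j (_ : j ∈ Finset.univ) => hterm j)
  rw [Finset.sum_add_distrib, Finset.sum_add_distrib, ← Finset.mul_sum, ← Finset.mul_sum] at hsum
  have hone : ∑ j : Fin M, (if nr (y - X j) < d then A0 * (2 / d) else 0) ≤ A0 * (2 / d) := by
    refine one_term X d hd hX y (fun j => if nr (y - X j) < d then A0 * (2 / d) else 0) ?_
      (fun t => t ≤ A0 * (2 / d)) hc ?_
    · intro j hj
      exact if_neg (not_lt.2 hj)
    · intro j
      show (if nr (y - X j) < d then A0 * (2 / d) else 0) ≤ A0 * (2 / d)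
      split_ifs
      · exact le_rfl
      · exact hc
  have hpk := mul_le_mul_of_nonneg_left (hPK M X d y hd hX) (show 0 ≤ 15 / 2 * d by positivity)
  show ∑ j, mor s (y - X j) ≤ -(1 / 2) * (∑ j, lap (lap (mg d s)) (y - X j)) +
    (A0 * (2 / d) + 15 / 2 * d * (C / d ^ 4) + 1)
  linarith

end Pool.Agent.Helper99.LN
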